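import Pool.Agent.T9h95.SO.Pf

/-!
# Piece dd: the decisions are in the second level of the polynomial hierarchy
-/

set_option autoImplicit false

namespace Pool.Agent.T9h65.SO

open Turing Computability N68a2faeb N793a5b8e Pool.Agent.H583R2
open Pool.Agent.T9h49.SC hiding found act stp st upd badN RK RN KK NN Good
open Pool.Agent.T9h21.UB
open Pool.Agent.T9h75.SO
open Pool.Agent.T9h95.SO (pf_lg pf_own)

/-! ### the language asked -/

/-- the code -/
def cdM (q : List Bool) : Pool.Agent.H583R2.Code :=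
  if q.headD false = true then (ix (iE q.tail)).2.1 else (ix (iE q.tail)).1

/-- the verifier -/
def RM (p : List Bool × List Bool) : Bool :=
  accT (cdM p.1) (tmC (ix (iE p.1.tail)).2.2 (iX p.1.tail) p.1.length) (iX p.1.tail) p.2

/-- the language -/
noncomputable def LM : DecisionProblem := fun q =>
  @decide (∃ w : List Bool, w.length ≤ q.length ∧ RM (q, w) = true) (Classical.propDecidable _)

theorem LM_iff (q : List Bool) : LM q = true ↔
    ∃ w : List Bool, w.length ≤ q.length ∧ RM (q, w) = true := by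
  simp [LM]

theorem pf_RM : PF RM := by
  have hq : PF (fun p : List Bool × List Bool => p.1.tail) := PF.tail PF.fst
  have hix : PF (fun p : List Bool × List Bool => ix (iE p.1.tail)) := pf_ix (pf_iE hq)
  have hc : PF (fun p : List Bool × List Bool => cdM p.1) := by
    have := PF.ite (PF.headD PF.fst (PF.const false)) (PF.fst' (PF.snd' hix)) (PF.fst' hix)
    exact this
  exact pf_accT hc (pf_tmC (PF.snd' (PF.snd' hix)) (pf_iX hq) (PF.length PF.fst)) (pf_iX hq) PF.snd

theorem LM_np : LM ∈ NP := mem_np pf_RM LM_iff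

theorem LM_inst (b : Bool) (e : ℕ) (y : List Bool) (N : ℕ) (h : tm (ix e).2.2 y ≤ N) :
    LM (b :: inst e y N) = true ↔
      Acc (if b = true then (ix e).2.1 else (ix e).1) (ix e).2.2 y := by
  rw [LM_iff]
  unfold RM cdM
  simp only [List.headD_cons, List.tail_cons, iE_inst, iX_inst]
  refine search_iff ?_
  have := le_inst e y N
  rw [List.length_cons]
  omega

/-! ### the computations -/

/-- the position -/
def pJ (v : List Bool) : ℕ := lg (uP v).1.length - 1

/-- the budget (`2 ^ J`) -/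
def pN (v : List Bool) : ℕ := min (2 ^ pJ v) ((uP v).1.length + 1)

/-- the input of the verifiers -/
def pY (v x : List Bool) : List Bool :=
  eP x ((uP v).2.take (lg (tmC (ix (own (pJ v))).2.2 x (pN v))))

/-- the queries -/
def qD (u : List Bool × List Bool) : List Bool :=
  decide (1 ≤ u.2.length) :: inst (own (pJ (uP u.1).1)) (pY (uP u.1).1 (uP u.1).2) (pN (uP u.1).1)

/-- the records -/
def rec0 (v : List Bool) : Bool :=
  (List.range (pJ v)).all (fun j => !decide (own j = own (pJ v)) || !((uP v).2.getD j false))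

/-- the checks -/
def chk (cd : ℕ → ℕ → Bool) (v x : List Bool) : Bool :=
  decide (1 ≤ (uP v).1.length) && (cd (own (pJ v)) (pN v) && (rec0 v &&
    decide (min (Q (own (pJ v)) x) (pN v + 1) < pN v)))

/-- the decision -/
def dD (cd : ℕ → ℕ → Bool) (u : List Bool × List Bool) : Bool :=
  chk cd (uP u.1).1 (uP u.1).2 && (u.2.getD 0 false == u.2.getD 1 false)

section
variable {α : Type} [TEnc α]

theorem pf_pJ {v : α → List Bool} (hv : PF v) : PF (fun a => pJ (v a)) :=
  PF.pred (pf_lg (PF.length (PF.fst' (pf_uP hv))))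

theorem pf_pN {v : α → List Bool} (hv : PF v) : PF (fun a => pN (v a)) :=
  pf_cexp (pf_pJ hv) (PF.succ (PF.length (PF.fst' (pf_uP hv))))

theorem pf_pY {v x : α → List Bool} (hv : PF v) (hx : PF x) : PF (fun a => pY (v a) (x a)) :=
  pf_eP hx (PF.take (pf_lg (pf_tmC (PF.snd' (PF.snd' (pf_ix (pf_own (pf_pJ hv))))) hx
    (pf_pN hv))) (PF.snd' (pf_uP hv)))

theorem pf_qD : PF qD := by
  have hv : PF (fun u : List Bool × List Bool => (uP u.1).1) := PF.fst' (pf_uP PF.fst)
  have hx : PF (fun u : List Bool × List Bool => (uP u.1).2) := PF.snd' (pf_uP PF.fst)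
  exact PF.cons (PF.le (PF.const 1) (PF.length PF.snd))
    (pf_inst (pf_own (pf_pJ hv)) (pf_pY hv hx) (pf_pN hv))

theorem pf_q0 (hpf : S_pf) {e n : α → ℕ} {x : α → List Bool} (he : PF e) (hx : PF x) (hn : PF n) :
    PF (fun a => min (Q (e a) (x a)) (n a + 1)) :=
  PF.comp (g := fun p : ℕ × List Bool × ℕ => min (Q p.1 p.2.1) (p.2.2 + 1))
    (f := fun a => (e a, x a, n a)) hpf.2.2.2.1 (PF.pair he (PF.pair hx hn))

theorem pf_rec0 {v : α → List Bool} (hv : PF v) : PF (fun a => rec0 (v a)) := by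
  have h3 : PF (fun p : α × ℕ => !decide (own p.2 = own (pJ (v p.1))) ||
      !((uP (v p.1)).2.getD p.2 false)) :=
    PF.or (PF.not (PF.natEq (pf_own PF.snd) (pf_own (pf_pJ (hv.comp PF.fst)))))
      (PF.not (PF.listGetD PF.snd (PF.snd' (pf_uP (hv.comp PF.fst))) (PF.const false)))
  exact PF.all (l := fun a => List.range (pJ (v a)))
    (f := fun a j => !decide (own j = own (pJ (v a))) || !((uP (v a)).2.getD j false))
    (PF.range (pf_pJ hv)) h3

theorem pf_chk (hpf : S_pf) {cd : ℕ → ℕ → Bool} (hcd : PF (fun p : ℕ × ℕ => cd p.1 p.2))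
    {v x : α → List Bool} (hv : PF v) (hx : PF x) : PF (fun a => chk cd (v a) (x a)) := by
  have h1 : PF (fun a => cd (own (pJ (v a))) (pN (v a))) :=
    PF.comp (g := fun p : ℕ × ℕ => cd p.1 p.2) (f := fun a => (own (pJ (v a)), pN (v a))) hcd
      (PF.pair (pf_own (pf_pJ hv)) (pf_pN hv))
  have h2 : PF (fun a => min (Q (own (pJ (v a))) (x a)) (pN (v a) + 1)) :=
    pf_q0 hpf (pf_own (pf_pJ hv)) hx (pf_pN hv)
  have h4 : PF (fun a => decide (min (Q (own (pJ (v a))) (x a)) (pN (v a) + 1) < pN (v a))) :=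
    PF.lt h2 (pf_pN hv)
  have h5 : PF (fun a => decide (1 ≤ (uP (v a)).1.length)) :=
    PF.le (PF.const 1) (PF.length (PF.fst' (pf_uP hv)))
  exact PF.and h5 (PF.and h1 (PF.and (pf_rec0 hv) h4))

theorem pf_dD (hpf : S_pf) {cd : ℕ → ℕ → Bool} (hcd : PF (fun p : ℕ × ℕ => cd p.1 p.2)) :
    PF (dD cd) := by
  have hv : PF (fun u : List Bool × List Bool => (uP u.1).1) := PF.fst' (pf_uP PF.fst)
  have hx : PF (fun u : List Bool × List Bool => (uP u.1).2) := PF.snd' (pf_uP PF.fst)
  exact PF.and (pf_chk hpf hcd hv hx) (PF.beqBool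
    (PF.listGetD (PF.const 0) PF.snd (PF.const false))
    (PF.listGetD (PF.const 1) PF.snd (PF.const false)))

end

theorem pN_eq {v : List Bool} (h : 1 ≤ (uP v).1.length) :
    pN v = 2 ^ pJ v ∧ 2 ^ pJ v ≤ (uP v).1.length := by
  have h1 : 0 < lg (uP v).1.length := by
    rw [lt_lg]; simpa using h
  have h2 : 2 ^ pJ v ≤ (uP v).1.length := by
    rw [← lt_lg]
    unfold pJ
    omega
  refine ⟨?_, h2⟩
  unfold pN
  exact min_eq_left (by omega)

theorem chk_iff {cd : ℕ → ℕ → Bool} {v x : List Bool} : chk cd v x = true ↔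
    1 ≤ (uP v).1.length ∧ cd (own (pJ v)) (2 ^ pJ v) = true ∧
      (∀ j, j < pJ v → own j = own (pJ v) → (uP v).2.getD j false = false) ∧
      Q (own (pJ v)) x < 2 ^ pJ v := by
  unfold chk rec0
  simp only [Bool.and_eq_true, decide_eq_true_eq, List.all_eq_true, List.mem_range, Bool.or_eq_true,
    Bool.not_eq_true', decide_eq_false_iff_not]
  constructor
  · rintro ⟨h1, h2, h3, h4⟩
    have h5 := (pN_eq h1).1
    rw [h5] at h2 h4
    refine ⟨h1, h2, fun j hj ho => ?_, by omega⟩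
    rcases h3 j hj with h | h
    · exact absurd ho h
    · exact h
  · rintro ⟨h1, h2, h3, h4⟩
    have h5 := (pN_eq h1).1
    rw [h5]
    refine ⟨h1, h2, fun j hj => ?_, by omega⟩
    by_cases ho : own j = own (pJ v)
    · exact Or.inr (h3 j hj ho)
    · exact Or.inl ho

theorem ans_iff (hpf : S_pf) {v x : List Bool} (h1 : 1 ≤ (uP v).1.length)
    (h4 : Q (own (pJ v)) x < 2 ^ pJ v) :
    ((oracleAnswers qD LM (eP v x) 2).getD 0 false ==
      (oracleAnswers qD LM (eP v x) 2).getD 1 false) = true ↔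
    Fail (own (pJ v)) x (uP v).2 := by
  obtain ⟨hN, -⟩ := pN_eq h1
  have h5 : tm (ix (own (pJ v))).2.2 x ≤ Q (own (pJ v)) x := hpf.2.2.2.2.1 _ _
  have h6 : tm (ix (own (pJ v))).2.2 (yy (own (pJ v)) x (uP v).2) ≤ Q (own (pJ v)) x :=
    hpf.2.2.2.2.2 _ _ _
  have h7 : pY v x = yy (own (pJ v)) x (uP v).2 := by
    unfold pY yy
    rw [hN]
    have : tmC (ix (own (pJ v))).2.2 x (2 ^ pJ v) = tm (ix (own (pJ v))).2.2 x :=
      min_eq_left (by omega)
    rw [this]
  have hq0 : qD (eP v x, []) = false :: inst (own (pJ v)) (yy (own (pJ v)) x (uP v).2) (pN v) := by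
    unfold qD
    simp only [uP_eP, h7]
    rfl
  have hq1 : ∀ b : Bool, qD (eP v x, [b]) =
      true :: inst (own (pJ v)) (yy (own (pJ v)) x (uP v).2) (pN v) := by
    intro b
    unfold qD
    simp only [uP_eP, h7]
    rfl
  have h8 : oracleAnswers qD LM (eP v x) 2 =
      [LM (false :: inst (own (pJ v)) (yy (own (pJ v)) x (uP v).2) (pN v)),
        LM (true :: inst (own (pJ v)) (yy (own (pJ v)) x (uP v).2) (pN v))] := by
    have h9 : oracleAnswers qD LM (eP v x) 1 =
        [LM (false :: inst (own (pJ v)) (yy (own (pJ v)) x (uP v).2) (pN v))] := by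
      rw [← hq0]; rfl
    have h10 : oracleAnswers qD LM (eP v x) 2 = oracleAnswers qD LM (eP v x) 1 ++
        [LM (qD (eP v x, oracleAnswers qD LM (eP v x) 1))] := rfl
    rw [h10, h9, hq1]
    rfl
  rw [h8]
  have a0 := LM_inst false (own (pJ v)) (yy (own (pJ v)) x (uP v).2) (pN v) (by omega)
  have a1 := LM_inst true (own (pJ v)) (yy (own (pJ v)) x (uP v).2) (pN v) (by omega)
  simp only [Bool.false_eq_true, if_false, if_true] at a0 a1
  unfold Fail
  rw [← a0, ← a1]
  simp only [List.getD_cons_zero, List.getD_cons_succ, beq_iff_eq]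
  generalize LM (false :: inst (own (pJ v)) (yy (own (pJ v)) x (uP v).2) (pN v)) = b0
  generalize LM (true :: inst (own (pJ v)) (yy (own (pJ v)) x (uP v).2) (pN v)) = b1
  cases b0 <;> cases b1 <;> simp

theorem dD_iff (hpf : S_pf) {cd : ℕ → ℕ → Bool} {v x : List Bool} :
    dD cd (eP v x, oracleAnswers qD LM (eP v x) 2) = true ↔
      1 ≤ (uP v).1.length ∧ cd (own (pJ v)) (2 ^ pJ v) = true ∧
      (∀ j, j < pJ v → own j = own (pJ v) → (uP v).2.getD j false = false) ∧
      Q (own (pJ v)) x < 2 ^ pJ v ∧ Fail (own (pJ v)) x (uP v).2 := by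
  unfold dD
  dsimp only
  rw [uP_eP, Bool.and_eq_true, chk_iff]
  dsimp only
  constructor
  · rintro ⟨⟨h1, h2, h3, h4⟩, h5⟩
    exact ⟨h1, h2, h3, h4, (ans_iff hpf h1 h4).1 h5⟩
  · rintro ⟨h1, h2, h3, h4, h5⟩
    exact ⟨⟨h1, h2, h3, h4⟩, (ans_iff hpf h1 h4).2 h5⟩

theorem DD_iff {cd : ℕ → ℕ → Bool} {v : List Bool} : DD cd v = true ↔
    1 ≤ (uP v).1.length ∧ cd (own (pJ v)) (2 ^ pJ v) = true ∧
      (∀ j, j < pJ v → own j = own (pJ v) → (uP v).2.getD j false = false) ∧
      ∃ x : List Bool, Q (own (pJ v)) x < 2 ^ pJ v ∧ Fail (own (pJ v)) x (uP v).2 := by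
  unfold DD
  rw [Bool.and_eq_true, decide_eq_true_eq]
  refine and_congr_right fun _ => ?_
  unfold dec
  simp only [decide_eq_true_eq]
  rfl

theorem dd : S_pf → S_dd := by
  intro hpf cd hcd
  refine ⟨LM, ?_, ?_⟩
  · have h := LM_np
    rw [← sigma_one] at h
    exact h
  · rw [mem_npRel]
    refine ⟨Polynomial.X, fun z => dD cd (z, oracleAnswers qD LM z 2),
      ⟨qD, dD cd, Polynomial.C 2, isPolyTimeL_of_pf pf_qD, isPolyTime_of_pf2 (pf_dD hpf hcd),
        fun z => by rw [Polynomial.eval_C]⟩, fun v => ?_⟩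
    rw [DD_iff, Polynomial.eval_X]
    simp only [dD_iff hpf]
    constructor
    · rintro ⟨h1, h2, h3, x, h4, h5⟩
      refine ⟨x, ?_, h1, h2, h3, h4, h5⟩
      have h6 := (pN_eq h1).2
      have h7 := uP1_le v
      have h8 : x.length ≤ Q (own (pJ v)) x := Nat.le_add_right _ _
      omega
    · rintro ⟨x, _, h1, h2, h3, h4, h5⟩
      exact ⟨h1, h2, h3, x, h4, h5⟩

end Pool.Agent.T9h65.SO
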