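import Pool.Agent.T9h95.SO.Pf

/-!
# Piece mem: membership in `NP` relative to the sparse oracle
-/

set_option autoImplicit false

namespace Pool.Agent.T9h65.SO

open Turing Computability N68a2faeb N793a5b8e Pool.Agent.H583R2
open Pool.Agent.T9h49.SC hiding found act stp st upd badN RK RN KK NN Good
open Pool.Agent.T9h21.UB
open Pool.Agent.T9h75.SO
open Pool.Agent.T9h95.SO (pf_lg)

theorem lg_mono {a b : ℕ} (h : a ≤ b) : lg a ≤ lg b := Nat.size_le_size h

theorem mem : S_orc → S_mem := by
  intro horc t R L hR hL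
  rw [mem_npRel]
  have hV' : PF (fun u : List Bool × List Bool =>
      R ((uP u.1).1, (uP u.1).2, u.2.take (lg (uP u.1).1.length))) :=
    hR.comp (PF.pair (PF.fst' (pf_uP PF.fst)) (PF.pair (PF.snd' (pf_uP PF.fst))
      (PF.take (pf_lg (PF.length (PF.fst' (pf_uP PF.fst)))) PF.snd)))
  refine ⟨Polynomial.X, _, horc t _ 1 hV', fun z => ?_⟩
  rw [hL z, Polynomial.eval_X]
  have key : ∀ w, R ((uP (eP z w)).1, (uP (eP z w)).2,
      (pr t (lg (((eP z w).length + 2) ^ 1))).take (lg (uP (eP z w)).1.length)) =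
      R (z, w, pr t (lg z.length)) := by
    intro w
    rw [uP_eP]
    dsimp only
    rw [pr_take]
    apply lg_mono
    rw [pow_one, eP_length]
    omega
  simp only [key]

end Pool.Agent.T9h65.SO
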